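import Mathlib
import Pool.Agent.H22.KF.Targets

/-!
# MP_3fd637_nt, module CQ: weighted flag sum over a cube
-/

open MeasureTheory Filter Topology
open scoped ENNReal

namespace KF83

open KF

theorem abs_le_nz (v : VZ) (a : Fin 3) : |(v a : ℝ)| ≤ nz v := by
  unfold nz nrm cst
  apply Real.abs_le_sqrt
  exact Finset.single_le_sum (f := fun i => ((v i : ℝ)) ^ 2) (fun i _ => sq_nonneg _)
    (Finset.mem_univ a)

theorem nz_nonneg (v : VZ) : 0 ≤ nz v := by
  unfold nz nrm; exact Real.sqrt_nonneg _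

theorem nz_le (v : VZ) (M : ℝ) (h : ∀ a, |(v a : ℝ)| ≤ M) : nz v ≤ 2 * M := by
  have hM : 0 ≤ M := le_trans (abs_nonneg _) (h 0)
  unfold nz nrm cst
  rw [Real.sqrt_le_left (by linarith)]
  rw [Fin.sum_univ_three]
  have h0 := sq_le_sq' (abs_le.1 (h 0)).1 (abs_le.1 (h 0)).2
  have h1 := sq_le_sq' (abs_le.1 (h 1)).1 (abs_le.1 (h 1)).2
  have h2 := sq_le_sq' (abs_le.1 (h 2)).1 (abs_le.1 (h 2)).2
  nlinarith

theorem prim_ne {v : VZ} (h : Prim v) : v ≠ 0 := by
  intro h0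
  have h2 := h 2 (by intro j; rw [h0]; simp)
  rw [Int.isUnit_iff] at h2
  omega

theorem one_le_nz {v : VZ} (h : Prim v) : 1 ≤ nz v := by
  have h0 := prim_ne h
  obtain ⟨a, ha⟩ := Function.ne_iff.1 h0
  refine le_trans ?_ (abs_le_nz v a)
  have : (1 : ℤ) ≤ |v a| := Int.one_le_abs ha
  exact_mod_cast this

/-- the cone condition -/
def Cone (q : V3) (k : Fin 3) (s : ℝ) (v : VZ) : Prop :=
  ∀ a, |(v a : ℝ) * q k - (v k : ℝ) * q a| ≤ 3 * s * |(v k : ℝ)|

section theta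

variable {q : V3} {k : Fin 3} {r s : ℝ}

theorem mem_facts (hk : ∀ a, |q a| ≤ |q k|) (hs : 0 < s) (hr : 8 * s ≤ r) (hq : r ≤ |q k|)
    {v : VZ} {τ : ℝ} (h : (fun j => Real.exp τ * (v j : ℝ)) ∈ Metric.ball q s) :
    (v k : ℝ) ≠ 0 ∧ |q k| - s < Real.exp τ * |(v k : ℝ)| ∧
      Real.exp τ * |(v k : ℝ)| < |q k| + s ∧ Cone q k s v := by
  rw [Metric.mem_ball, dist_pi_lt_iff hs] at h
  have h' : ∀ a, |Real.exp τ * (v a : ℝ) - q a| < s := by
    intro a
    have := h a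
    rwa [Real.dist_eq] at this
  have he : 0 < Real.exp τ := Real.exp_pos τ
  have hkk := h' k
  have e1 : Real.exp τ * |(v k : ℝ)| = |Real.exp τ * (v k : ℝ)| := by
    rw [abs_mul, abs_of_pos he]
  have l1 : |q k| - s < Real.exp τ * |(v k : ℝ)| := by
    rw [e1]
    have := abs_sub_abs_le_abs_sub (q k) (Real.exp τ * (v k : ℝ))
    rw [abs_sub_comm] at this
    linarith
  have l2 : Real.exp τ * |(v k : ℝ)| < |q k| + s := by
    rw [e1]
    have := abs_sub_abs_le_abs_sub (Real.exp τ * (v k : ℝ)) (q k)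
    linarith
  refine ⟨?_, l1, l2, ?_⟩
  · intro h0
    rw [h0] at l1
    simp at l1
    linarith
  · intro a
    have h1 : Real.exp τ * |(v a : ℝ) * q k - (v k : ℝ) * q a| ≤ 2 * s * |q k| := by
      have e2 : Real.exp τ * |(v a : ℝ) * q k - (v k : ℝ) * q a|
          = |(Real.exp τ * (v a : ℝ) - q a) * q k - (Real.exp τ * (v k : ℝ) - q k) * q a| := by
        rw [← abs_of_pos he, ← abs_mul, abs_of_pos he]
        congr 1
        ring
      rw [e2]
      refine le_trans (abs_sub _ _) ?_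
      rw [abs_mul, abs_mul]
      have i1 : |Real.exp τ * (v a : ℝ) - q a| * |q k| ≤ s * |q k| :=
        mul_le_mul_of_nonneg_right (h' a).le (abs_nonneg _)
      have i2 : |Real.exp τ * (v k : ℝ) - q k| * |q a| ≤ s * |q k| :=
        mul_le_mul (h' k).le (hk a) (abs_nonneg _) hs.le
      linarith
    have h2 : |q k| ≤ 8 / 7 * (Real.exp τ * |(v k : ℝ)|) := by linarith
    have h3 : Real.exp τ * |(v a : ℝ) * q k - (v k : ℝ) * q a|
        ≤ Real.exp τ * (3 * s * |(v k : ℝ)|) := by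
      refine le_trans h1 ?_
      have h4 : 2 * s * |q k| ≤ 2 * s * (8 / 7 * (Real.exp τ * |(v k : ℝ)|)) :=
        mul_le_mul_of_nonneg_left h2 (by linarith)
      have h5 : 0 ≤ s * (Real.exp τ * |(v k : ℝ)|) := by positivity
      nlinarith
    exact le_of_mul_le_mul_left h3 he

theorem theta_le (hk : ∀ a, |q a| ≤ |q k|) (hs : 0 < s) (hr : 8 * s ≤ r) (hq : r ≤ |q k|)
    (v : VZ) : (theta (Metric.ball q s) v).toReal ≤ 3 * s / r := by
  have hr0 : 0 < r := by linarith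
  by_cases hne : ∃ τ : ℝ, (fun j => Real.exp τ * (v j : ℝ)) ∈ Metric.ball q s
  · obtain ⟨τ0, h0⟩ := hne
    obtain ⟨hvk, -, -, -⟩ := mem_facts hk hs hr hq h0
    have hv : 0 < |(v k : ℝ)| := abs_pos.2 hvk
    have hq1 : 0 < |q k| - s := by linarith
    have hq2 : 0 < |q k| + s := by linarith
    set α := Real.log ((|q k| - s) / |(v k : ℝ)|) with hα
    set β := Real.log ((|q k| + s) / |(v k : ℝ)|) with hβ
    have hsub : {τ : ℝ | (fun j => Real.exp τ * (v j : ℝ)) ∈ Metric.ball q s} ⊆ Set.Icc α β := by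
      intro τ hτ
      obtain ⟨-, l1, l2, -⟩ := mem_facts hk hs hr hq hτ
      refine ⟨?_, ?_⟩
      · rw [hα, Real.log_le_iff_le_exp (by positivity), div_le_iff₀ hv]
        exact l1.le
      · rw [hβ, Real.le_log_iff_exp_le (by positivity), le_div_iff₀ hv]
        exact l2.le
    have hle : theta (Metric.ball q s) v ≤ ENNReal.ofReal (β - α) := by
      unfold theta
      refine le_trans (measure_mono hsub) ?_
      rw [Real.volume_Icc]
    have hβα : β - α ≤ 3 * s / r := by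
      rw [hα, hβ, ← Real.log_div (by positivity) (by positivity)]
      have e : (|q k| + s) / |(v k : ℝ)| / ((|q k| - s) / |(v k : ℝ)|)
          = (|q k| + s) / (|q k| - s) := by
        field_simp
      rw [e]
      refine le_trans (Real.log_le_sub_one_of_pos (by positivity)) ?_
      have e2 : (|q k| + s) / (|q k| - s) - 1 = 2 * s / (|q k| - s) := by
        field_simp
        ring
      rw [e2, div_le_div_iff₀ hq1 hr0]
      nlinarith
    calc (theta (Metric.ball q s) v).toReal ≤ (ENNReal.ofReal (3 * s / r)).toReal := by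
          apply ENNReal.toReal_mono ENNReal.ofReal_ne_top
          exact le_trans hle (ENNReal.ofReal_le_ofReal hβα)
      _ = 3 * s / r := ENNReal.toReal_ofReal (by positivity)
  · push Not at hne
    have : {τ : ℝ | (fun j => Real.exp τ * (v j : ℝ)) ∈ Metric.ball q s} = ∅ := by
      ext τ
      simp only [Set.mem_ofPred_eq, Set.mem_empty_iff_false, iff_false]
      exact hne τ
    unfold theta
    rw [this]
    simp
    positivity

theorem cone_of_theta (hk : ∀ a, |q a| ≤ |q k|) (hs : 0 < s) (hr : 8 * s ≤ r) (hq : r ≤ |q k|)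
    (v : VZ) (h : theta (Metric.ball q s) v ≠ 0) : (v k : ℝ) ≠ 0 ∧ Cone q k s v := by
  have hne : {τ : ℝ | (fun j => Real.exp τ * (v j : ℝ)) ∈ Metric.ball q s}.Nonempty := by
    rw [Set.nonempty_iff_ne_empty]
    intro h0
    apply h
    unfold theta
    rw [h0]
    simp
  obtain ⟨τ, hτ⟩ := hne
  obtain ⟨h1, -, -, h2⟩ := mem_facts hk hs hr hq hτ
  exact ⟨h1, h2⟩

end theta

/-! ### counting -/

theorem card_interval (S : Finset ℤ) (c ρ : ℝ) (hρ : 0 ≤ ρ) (h : ∀ x ∈ S, |(x : ℝ) - c| ≤ ρ) :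
    (S.card : ℝ) ≤ 2 * ρ + 1 := by
  have hsub : S ⊆ Finset.Icc ⌈c - ρ⌉ ⌊c + ρ⌋ := by
    intro x hx
    have := abs_le.1 (h x hx)
    rw [Finset.mem_Icc]
    exact ⟨Int.ceil_le.2 (by linarith), Int.le_floor.2 (by linarith)⟩
  have h1 : (S.card : ℤ) ≤ max (⌊c + ρ⌋ + 1 - ⌈c - ρ⌉) 0 := by
    have := Finset.card_le_card hsub
    rw [Int.card_Icc] at this
    calc (S.card : ℤ) ≤ ((⌊c + ρ⌋ + 1 - ⌈c - ρ⌉).toNat : ℤ) := by exact_mod_cast this
      _ = max (⌊c + ρ⌋ + 1 - ⌈c - ρ⌉) 0 := Int.ofNat_toNat _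
  have h2 : ((S.card : ℤ) : ℝ) ≤ ((max (⌊c + ρ⌋ + 1 - ⌈c - ρ⌉) 0 : ℤ) : ℝ) := by exact_mod_cast h1
  have h3 : ((max (⌊c + ρ⌋ + 1 - ⌈c - ρ⌉) 0 : ℤ) : ℝ) ≤ 2 * ρ + 1 := by
    push_cast
    apply max_le
    · have a1 := Int.floor_le (c + ρ)
      have a2 := Int.le_ceil (c - ρ)
      linarith
    · linarith
  calc (S.card : ℝ) = ((S.card : ℤ) : ℝ) := by push_cast; rfl
    _ ≤ _ := le_trans h2 h3

theorem card_le_mul {α β : Type*} [DecidableEq β] (W : Finset α) (f : α → β) (c : ℝ)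
    (hc : ∀ y ∈ W.image f, ((W.filter (fun x => f x = y)).card : ℝ) ≤ c) :
    (W.card : ℝ) ≤ c * ((W.image f).card : ℝ) := by
  classical
  have h := Finset.card_eq_sum_card_image f W
  have h2 : (W.card : ℝ) = ∑ b ∈ W.image f, ((W.filter (fun x => f x = b)).card : ℝ) := by
    rw [h]; push_cast; rfl
  rw [h2]
  refine le_trans (Finset.sum_le_card_nsmul _ _ c hc) ?_
  rw [nsmul_eq_mul, mul_comm]

theorem card_le_prod (W : Finset VZ) :
    (W.card : ℝ) ≤ ((W.image (fun v => v 0)).card : ℝ) * ((W.image (fun v => v 1)).card : ℝ)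
      * ((W.image (fun v => v 2)).card : ℝ) := by
  classical
  have hsub : W ⊆ Fintype.piFinset (fun a : Fin 3 => W.image (fun v => v a)) := by
    intro v hv
    rw [Fintype.mem_piFinset]
    intro a
    exact Finset.mem_image_of_mem _ hv
  have h := Finset.card_le_card hsub
  rw [Fintype.card_piFinset, Fin.prod_univ_three] at h
  exact_mod_cast h

/-- coordinates in intervals -/
theorem card_le_box (W : Finset VZ) (c ρ : Fin 3 → ℝ) (hρ : ∀ a, 0 ≤ ρ a)
    (h : ∀ v ∈ W, ∀ a, |(v a : ℝ) - c a| ≤ ρ a) :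
    (W.card : ℝ) ≤ (2 * ρ 0 + 1) * (2 * ρ 1 + 1) * (2 * ρ 2 + 1) := by
  have key : ∀ a : Fin 3, ((W.image (fun v => v a)).card : ℝ) ≤ 2 * ρ a + 1 := by
    intro a
    apply card_interval _ (c a) (ρ a) (hρ a)
    intro x hx
    obtain ⟨v, hv, rfl⟩ := Finset.mem_image.1 hx
    exact h v hv a
  refine le_trans (card_le_prod W) ?_
  have h0 := hρ 0
  have h1 := hρ 1
  have h2 := hρ 2
  apply mul_le_mul _ (key 2) (by positivity) (by positivity)
  apply mul_le_mul (key 0) (key 1) (by positivity) (by positivity)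

/-- two coordinates bounded, the `k`-th one in an interval depending on the other ones -/
theorem card_dual (W : Finset VZ) (q : V3) (k : Fin 3) (r M δ : ℝ) (hr : 0 < r) (hq : r ≤ |q k|)
    (hM : 0 ≤ M) (hδ : 0 ≤ δ) (h1 : ∀ w ∈ W, ∀ a, |(w a : ℝ)| ≤ M)
    (h2 : ∀ w ∈ W, |∑ a, (w a : ℝ) * q a| ≤ δ) :
    (W.card : ℝ) ≤ (2 * (δ / r) + 1) * (2 * M + 1) ^ 2 := by
  classical
  set f : VZ → VZ := fun w => Function.update w k 0 with hf
  have hqk : 0 < |q k| := lt_of_lt_of_le hr hq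
  have hfib : ∀ y ∈ W.image f, ((W.filter (fun x => f x = y)).card : ℝ) ≤ 2 * (δ / r) + 1 := by
    intro y hy
    have hinj : Set.InjOn (fun w : VZ => w k) (W.filter (fun x => f x = y)) := by
      intro w hw w' hw' hww
      simp only [Finset.coe_filter, Set.mem_ofPred_eq] at hw hw'
      funext a
      by_cases ha : a = k
      · rw [ha]; exact hww
      · have e1 := congrFun (hw.2.trans hw'.2.symm) a
        simp only [hf, Function.update_of_ne ha] at e1
        exact e1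
    rw [← Finset.card_image_of_injOn hinj]
    apply card_interval _ (-(∑ a, (y a : ℝ) * q a) / q k) (δ / r) (by positivity)
    intro x hx
    obtain ⟨w, hw, rfl⟩ := Finset.mem_image.1 hx
    rw [Finset.mem_filter] at hw
    have e2 : ∑ a, (w a : ℝ) * q a = ∑ a, (y a : ℝ) * q a + (w k : ℝ) * q k := by
      rw [← hw.2]
      have : ∀ a, (w a : ℝ) * q a
          = ((f w a : ℤ) : ℝ) * q a + (if a = k then (w k : ℝ) * q k else 0) := by
        intro a
        by_cases ha : a = k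
        · rw [ha]; simp [hf]
        · simp [hf, ha]
      rw [Finset.sum_congr rfl (fun a _ => this a), Finset.sum_add_distrib]
      simp
    have hqk0 : q k ≠ 0 := abs_pos.1 hqk
    have e3 : (w k : ℝ) - -(∑ a, (y a : ℝ) * q a) / q k = (∑ a, (w a : ℝ) * q a) / q k := by
      rw [e2]; field_simp; ring
    rw [e3, abs_div]
    exact div_le_div₀ hδ (h2 w hw.1) hr hq
  refine le_trans (card_le_mul W f _ hfib) ?_
  have hpos : 0 ≤ 2 * (δ / r) + 1 := by positivity
  apply mul_le_mul_of_nonneg_left _ hpos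
  have hbox := card_le_box (W.image f) (fun _ => 0) (fun a => if a = k then 0 else M)
    (by intro a; split_ifs <;> simp [hM])
    (by
      intro v hv a
      obtain ⟨w, hw, rfl⟩ := Finset.mem_image.1 hv
      by_cases ha : a = k
      · rw [ha]; simp [hf]
      · simp only [hf, Function.update_of_ne ha, ha, if_false, sub_zero]
        exact h1 w hw a)
  refine le_trans hbox (le_of_eq ?_)
  fin_cases k <;> simp <;> ring

/-- vectors of a cone -/
theorem card_cone (W : Finset VZ) (q : V3) (k : Fin 3) (r s M : ℝ) (hs : 0 ≤ s) (hr : 0 < r)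
    (hq : r ≤ |q k|) (hM : 0 ≤ M) (h1 : ∀ w ∈ W, |(w k : ℝ)| ≤ M)
    (h2 : ∀ w ∈ W, Cone q k s w) :
    (W.card : ℝ) ≤ (6 * s * M / r + 1) ^ 2 * (2 * M + 1) := by
  classical
  set f : VZ → ℤ := fun w => w k with hf
  have hqk : 0 < |q k| := lt_of_lt_of_le hr hq
  have hqk0 : q k ≠ 0 := abs_pos.1 hqk
  have hfib : ∀ y ∈ W.image f, ((W.filter (fun x => f x = y)).card : ℝ)
      ≤ (6 * s * M / r + 1) ^ 2 := by
    intro y hy
    have hbox := card_le_box (W.filter (fun x => f x = y))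
      (fun a => if a = k then (y : ℝ) else (y : ℝ) * q a / q k)
      (fun a => if a = k then 0 else 3 * s * M / r)
      (by intro a; split_ifs <;> positivity)
      (by
        intro v hv a
        rw [Finset.mem_filter] at hv
        by_cases ha : a = k
        · rw [ha]; simp only [if_true]
          have : v k = y := hv.2
          rw [this]; simp
        · simp only [ha, if_false]
          have hvy : v k = y := hv.2
          have h3 := h2 v hv.1 a
          rw [hvy] at h3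
          have e : (v a : ℝ) - (y : ℝ) * q a / q k = ((v a : ℝ) * q k - (y : ℝ) * q a) / q k := by
            field_simp
          rw [e, abs_div]
          apply div_le_div₀ (by positivity) _ hr hq
          refine le_trans h3 ?_
          have h4 := h1 v hv.1
          rw [hvy] at h4
          exact mul_le_mul_of_nonneg_left h4 (by positivity))
    refine le_trans hbox (le_of_eq ?_)
    fin_cases k <;> simp <;> ring
  refine le_trans (card_le_mul W f _ hfib) ?_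
  apply mul_le_mul_of_nonneg_left _ (by positivity)
  apply card_interval _ 0 M hM
  intro x hx
  obtain ⟨w, hw, rfl⟩ := Finset.mem_image.1 hx
  rw [sub_zero]
  exact h1 w hw

theorem card_fst (t : Finset (VZ × VZ)) (y : VZ) :
    (((t.filter (fun z => z.2 = y)).image Prod.fst).card : ℝ)
      = ((t.filter (fun z => z.2 = y)).card : ℝ) := by
  rw [Finset.card_image_of_injOn]
  intro z hz z' hz' h
  simp only [Finset.coe_filter, Set.mem_ofPred_eq] at hz hz'
  exact Prod.ext h (hz.2.trans hz'.2.symm)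

theorem card_snd (t : Finset (VZ × VZ)) (y : VZ) :
    (((t.filter (fun z => z.1 = y)).image Prod.snd).card : ℝ)
      = ((t.filter (fun z => z.1 = y)).card : ℝ) := by
  rw [Finset.card_image_of_injOn]
  intro z hz z' hz' h
  simp only [Finset.coe_filter, Set.mem_ofPred_eq] at hz hz'
  exact Prod.ext (hz.2.trans hz'.2.symm) h

theorem dotZ_comm (x y : VZ) : dotZ x y = dotZ y x := by unfold dotZ; ring

theorem dotZ_sub (w x y : VZ) : dotZ w (x - y) = dotZ w x - dotZ w y := by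
  unfold dotZ; simp only [Pi.sub_apply]; ring

theorem dotZ_real (w v : VZ) : ((dotZ w v : ℤ) : ℝ) = ∑ a, (w a : ℝ) * (v a : ℝ) := by
  unfold dotZ; rw [Fin.sum_univ_three]; push_cast; ring

/-- the conditions on a pair in a box -/
structure InBox (q : V3) (k : Fin 3) (s a b : ℝ) (z : VZ × VZ) : Prop where
  p1 : Prim z.1
  p2 : Prim z.2
  orth : dotZ z.2 z.1 = 0
  a1 : a ≤ nz z.1
  a2 : nz z.1 < 2 * a
  b1 : b ≤ nz z.2
  b2 : nz z.2 < 2 * b
  cone : Cone q k s z.1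
  ne : (z.1 k : ℝ) ≠ 0

section boxes

variable {q : V3} {k : Fin 3} {r s a b CL : ℝ}

theorem boundA (hC0 : 0 ≤ CL)
    (hCL : ∀ (w : VZ) (L : ℝ) (s : Finset VZ), Prim w → nz w ≤ L →
      (∀ v ∈ s, nz v ≤ L ∧ dotZ w v = 0) → (s.card : ℝ) ≤ CL * L ^ 2 / nz w)
    (ha : 1 ≤ a) (hb : 1 ≤ b) (hba : b ≤ a) (t : Finset (VZ × VZ))
    (ht : ∀ z ∈ t, InBox q k s a b z) : (t.card : ℝ) ≤ 500 * CL * (a ^ 2 * b ^ 2) := by
  classical
  have hfib : ∀ y ∈ t.image Prod.snd, ((t.filter (fun z => z.2 = y)).card : ℝ)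
      ≤ CL * (2 * a) ^ 2 / b := by
    intro y hy
    obtain ⟨z0, hz0, rfl⟩ := Finset.mem_image.1 hy
    have h0 := ht z0 hz0
    rw [← card_fst]
    refine le_trans (hCL z0.2 (2 * a) _ h0.p2 (by linarith [h0.b2]) ?_) ?_
    · intro v hv
      obtain ⟨z, hz, rfl⟩ := Finset.mem_image.1 hv
      rw [Finset.mem_filter] at hz
      have h1 := ht z hz.1
      refine ⟨h1.a2.le, ?_⟩
      rw [← hz.2]; exact h1.orth
    · apply div_le_div_of_nonneg_left (by positivity) (by linarith) h0.b1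
  have h1 := card_le_mul t Prod.snd _ hfib
  have h2 : ((t.image Prod.snd).card : ℝ) ≤ 125 * b ^ 3 := by
    have h3 := card_le_box (t.image Prod.snd) (fun _ => 0) (fun _ => 2 * b)
      (by intro a; linarith)
      (by
        intro v hv c
        obtain ⟨z, hz, rfl⟩ := Finset.mem_image.1 hv
        rw [sub_zero]
        exact le_trans (abs_le_nz _ _) (ht z hz).b2.le)
    refine le_trans h3 ?_
    have h4 : 2 * (2 * b) + 1 ≤ 5 * b := by linarith
    calc (2 * (2 * b) + 1) * (2 * (2 * b) + 1) * (2 * (2 * b) + 1)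
        = (2 * (2 * b) + 1) ^ 3 := by ring
      _ ≤ (5 * b) ^ 3 := pow_le_pow_left₀ (by linarith) h4 3
      _ = 125 * b ^ 3 := by ring
  have hb0 : 0 < b := by linarith
  calc (t.card : ℝ) ≤ _ := h1
    _ ≤ CL * (2 * a) ^ 2 / b * (125 * b ^ 3) :=
        mul_le_mul_of_nonneg_left h2 (by positivity)
    _ = 500 * CL * (a ^ 2 * b ^ 2) := by field_simp; ring

theorem boundC (hC0 : 0 ≤ CL)
    (hCL : ∀ (w : VZ) (L : ℝ) (s : Finset VZ), Prim w → nz w ≤ L →
      (∀ v ∈ s, nz v ≤ L ∧ dotZ w v = 0) → (s.card : ℝ) ≤ CL * L ^ 2 / nz w)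
    (hs : 0 < s) (hr : 0 < r) (hq : r ≤ |q k|)
    (ha : 1 ≤ a) (hb : 1 ≤ b) (hab : a ≤ b) (t : Finset (VZ × VZ))
    (ht : ∀ z ∈ t, InBox q k s a b z) :
    (t.card : ℝ) ≤ 40 * CL * (a ^ 2 * b ^ 2) * (144 / r ^ 2 * s ^ 2 + 1 / a ^ 2) := by
  classical
  have hfib : ∀ y ∈ t.image Prod.fst, ((t.filter (fun z => z.1 = y)).card : ℝ)
      ≤ CL * (2 * b) ^ 2 / a := by
    intro y hy
    obtain ⟨z0, hz0, rfl⟩ := Finset.mem_image.1 hy
    have h0 := ht z0 hz0
    rw [← card_snd]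
    refine le_trans (hCL z0.1 (2 * b) _ h0.p1 (by linarith [h0.a2]) ?_) ?_
    · intro v hv
      obtain ⟨z, hz, rfl⟩ := Finset.mem_image.1 hv
      rw [Finset.mem_filter] at hz
      have h1 := ht z hz.1
      refine ⟨h1.b2.le, ?_⟩
      rw [← hz.2, dotZ_comm]; exact h1.orth
    · apply div_le_div_of_nonneg_left (by positivity) (by linarith) h0.a1
  have h1 := card_le_mul t Prod.fst _ hfib
  have h2 : ((t.image Prod.fst).card : ℝ) ≤ 2 * (144 / r ^ 2 * s ^ 2 * a ^ 2 + 1) * (5 * a) := by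
    have h3 := card_cone (t.image Prod.fst) q k r s (2 * a) hs.le hr hq (by linarith)
      (by
        intro v hv
        obtain ⟨z, hz, rfl⟩ := Finset.mem_image.1 hv
        exact le_trans (abs_le_nz _ _) (ht z hz).a2.le)
      (by
        intro v hv
        obtain ⟨z, hz, rfl⟩ := Finset.mem_image.1 hv
        exact (ht z hz).cone)
    refine le_trans h3 ?_
    have h4 : 2 * (2 * a) + 1 ≤ 5 * a := by linarith
    have h5 : (6 * s * (2 * a) / r + 1) ^ 2 ≤ 2 * (144 / r ^ 2 * s ^ 2 * a ^ 2 + 1) := by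
      have e : 144 / r ^ 2 * s ^ 2 * a ^ 2 = (6 * s * (2 * a) / r) ^ 2 := by
        field_simp; ring
      rw [e]
      nlinarith [sq_nonneg (6 * s * (2 * a) / r - 1)]
    exact mul_le_mul h5 h4 (by linarith) (by positivity)
  have ha0 : 0 < a := by linarith
  calc (t.card : ℝ) ≤ _ := h1
    _ ≤ CL * (2 * b) ^ 2 / a * (2 * (144 / r ^ 2 * s ^ 2 * a ^ 2 + 1) * (5 * a)) :=
        mul_le_mul_of_nonneg_left h2 (by positivity)
    _ = 40 * CL * (a ^ 2 * b ^ 2) * (144 / r ^ 2 * s ^ 2 + 1 / a ^ 2) := by field_simp; ring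

/-- vectors of a cone orthogonal to `w` -/
theorem fiberB (hC0 : 0 ≤ CL)
    (hCL : ∀ (w : VZ) (L : ℝ) (s : Finset VZ), Prim w → nz w ≤ L →
      (∀ v ∈ s, nz v ≤ L ∧ dotZ w v = 0) → (s.card : ℝ) ≤ CL * L ^ 2 / nz w)
    (hk : ∀ a, |q a| ≤ |q k|) (hs : 0 < s) (hsr : 8 * s ≤ r) (hr : 0 < r) (hq : r ≤ |q k|)
    (ha : 1 ≤ a) (w : VZ) (hw : Prim w) (hwa : nz w ≤ 2 * (s * a)) (V : Finset VZ)
    (hV : ∀ v ∈ V, nz v ≤ 2 * a ∧ dotZ w v = 0 ∧ Cone q k s v) :
    (V.card : ℝ) ≤ CL * (4 * (12 / r + 1) ^ 2 * (4 + 3 * r / 8)) * (s * a ^ 2) / nz w := by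
  classical
  set L : ℝ := 2 * ((12 / r + 1) * (s * a)) with hL
  have hsa : 0 < s * a := by positivity
  have hwn : 0 < nz w := by linarith [one_le_nz hw]
  have hqk : 0 < |q k| := lt_of_lt_of_le hr hq
  set f : VZ → ℤ := fun v => ⌊(v k : ℝ) / (s * a)⌋ with hf
  have hfib : ∀ y ∈ V.image f, ((V.filter (fun x => f x = y)).card : ℝ)
      ≤ CL * L ^ 2 / nz w := by
    intro y hy
    obtain ⟨v0, hv0, rfl⟩ := Finset.mem_image.1 hy
    have hinj : Set.InjOn (fun v : VZ => v - v0) (V.filter (fun x => f x = f v0)) := by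
      intro x _ x' _ h
      exact sub_left_injective h
    rw [← Finset.card_image_of_injOn hinj]
    apply hCL w L _ hw
    · have : s * a ≤ (12 / r + 1) * (s * a) := by
        have h12 : 0 ≤ 12 / r := by positivity
        nlinarith
      rw [hL]; linarith
    · intro x hx
      obtain ⟨v, hv, rfl⟩ := Finset.mem_image.1 hx
      rw [Finset.mem_filter] at hv
      obtain ⟨n1, o1, c1⟩ := hV v hv.1
      obtain ⟨n0, o0, c0⟩ := hV v0 hv0
      refine ⟨?_, by rw [dotZ_sub, o1, o0, sub_zero]⟩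
      apply nz_le
      intro c
      have hkk : |(v k : ℝ) - (v0 k : ℝ)| ≤ s * a := by
        have e1 := Int.floor_le ((v k : ℝ) / (s * a))
        have e2 := Int.lt_floor_add_one ((v k : ℝ) / (s * a))
        have e3 := Int.floor_le ((v0 k : ℝ) / (s * a))
        have e4 := Int.lt_floor_add_one ((v0 k : ℝ) / (s * a))
        have e5 : ⌊(v k : ℝ) / (s * a)⌋ = ⌊(v0 k : ℝ) / (s * a)⌋ := hv.2
        rw [e5] at e1 e2
        have e6 : |(v k : ℝ) / (s * a) - (v0 k : ℝ) / (s * a)| ≤ 1 := by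
          rw [abs_le]; constructor <;> linarith
        rw [← sub_div, abs_div, abs_of_pos hsa, div_le_one hsa] at e6
        exact e6
      have hvk : |(v k : ℝ)| ≤ 2 * a := le_trans (abs_le_nz v k) n1
      have hvk0 : |(v0 k : ℝ)| ≤ 2 * a := le_trans (abs_le_nz v0 k) n0
      have e7 : ((v c : ℝ) - (v0 c : ℝ)) * q k
          = ((v c : ℝ) * q k - (v k : ℝ) * q c) - ((v0 c : ℝ) * q k - (v0 k : ℝ) * q c)
            + ((v k : ℝ) - (v0 k : ℝ)) * q c := by ring
      have e8 : |((v c : ℝ) - (v0 c : ℝ)) * q k| ≤ 12 * (s * a) + s * a * |q k| := by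
        rw [e7]
        refine le_trans (abs_add_le _ _) ?_
        have f1 := abs_sub ((v c : ℝ) * q k - (v k : ℝ) * q c)
          ((v0 c : ℝ) * q k - (v0 k : ℝ) * q c)
        have f2 := c1 c
        have f3 := c0 c
        have f4 : 3 * s * |(v k : ℝ)| ≤ 3 * s * (2 * a) :=
          mul_le_mul_of_nonneg_left hvk (by positivity)
        have f5 : 3 * s * |(v0 k : ℝ)| ≤ 3 * s * (2 * a) :=
          mul_le_mul_of_nonneg_left hvk0 (by positivity)
        have f6 : |((v k : ℝ) - (v0 k : ℝ)) * q c| ≤ s * a * |q k| := by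
          rw [abs_mul]
          exact mul_le_mul hkk (hk c) (abs_nonneg _) hsa.le
        linarith
      rw [abs_mul] at e8
      have e9 : |(v c : ℝ) - (v0 c : ℝ)| ≤ (12 * (s * a) + s * a * |q k|) / |q k| := by
        rw [le_div_iff₀ hqk]; exact e8
      have e10 : (12 * (s * a) + s * a * |q k|) / |q k| ≤ (12 / r + 1) * (s * a) := by
        have e11 : (12 * (s * a) + s * a * |q k|) / |q k| = 12 * (s * a) / |q k| + s * a := by
          field_simp
        rw [e11]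
        have e12 : 12 * (s * a) / |q k| ≤ 12 * (s * a) / r :=
          div_le_div_of_nonneg_left (by positivity) hr hq
        have e13 : 12 * (s * a) / r = 12 / r * (s * a) := by ring
        rw [e13] at e12
        linarith
      have e14 : (((v - v0) c : ℤ) : ℝ) = (v c : ℝ) - (v0 c : ℝ) := by
        simp
      rw [e14]
      linarith
  have h1 := card_le_mul V f _ hfib
  have h2 : ((V.image f).card : ℝ) ≤ 2 * (2 / s + 1) + 1 := by
    apply card_interval _ 0 (2 / s + 1) (by positivity)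
    intro x hx
    obtain ⟨v, hv, rfl⟩ := Finset.mem_image.1 hx
    obtain ⟨n1, -, -⟩ := hV v hv
    have hvk : |(v k : ℝ)| ≤ 2 * a := le_trans (abs_le_nz v k) n1
    have e1 := Int.floor_le ((v k : ℝ) / (s * a))
    have e2 := Int.lt_floor_add_one ((v k : ℝ) / (s * a))
    have e3 : |(v k : ℝ) / (s * a)| ≤ 2 / s := by
      rw [abs_div, abs_of_pos hsa, div_le_div_iff₀ hsa hs]
      nlinarith
    have e4 := abs_le.1 e3
    rw [sub_zero, abs_le]
    simp only [hf]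
    constructor <;> linarith [e4.1, e4.2]
  calc (V.card : ℝ) ≤ _ := h1
    _ ≤ CL * L ^ 2 / nz w * (2 * (2 / s + 1) + 1) := mul_le_mul_of_nonneg_left h2 (by positivity)
    _ = CL * (4 * (12 / r + 1) ^ 2 * (4 + 3 * s)) * (s * a ^ 2) / nz w := by
        rw [hL]; field_simp; ring
    _ ≤ CL * (4 * (12 / r + 1) ^ 2 * (4 + 3 * r / 8)) * (s * a ^ 2) / nz w := by
        gcongr
        linarith

theorem boundB (hC0 : 0 ≤ CL)
    (hCL : ∀ (w : VZ) (L : ℝ) (s : Finset VZ), Prim w → nz w ≤ L →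
      (∀ v ∈ s, nz v ≤ L ∧ dotZ w v = 0) → (s.card : ℝ) ≤ CL * L ^ 2 / nz w)
    (hk : ∀ a, |q a| ≤ |q k|) (hs : 0 < s) (hsr : 8 * s ≤ r) (hr : 0 < r) (hq : r ≤ |q k|)
    (ha : 1 ≤ a) (hb : 1 ≤ b) (hba : b ≤ s * a) (t : Finset (VZ × VZ))
    (ht : ∀ z ∈ t, InBox q k s a b z) :
    (t.card : ℝ) ≤ CL * (4 * (12 / r + 1) ^ 2 * (4 + 3 * r / 8)) * 25 * (a ^ 2 * b ^ 2) *
      (36 / r * s ^ 2 + s / b) := by
  classical
  have hb0 : 0 < b := by linarith
  set D : ℝ := CL * (4 * (12 / r + 1) ^ 2 * (4 + 3 * r / 8)) with hD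
  have hD0 : 0 ≤ D := by positivity
  have hfib : ∀ y ∈ t.image Prod.snd, ((t.filter (fun z => z.2 = y)).card : ℝ)
      ≤ D * (s * a ^ 2) / b := by
    intro y hy
    obtain ⟨z0, hz0, rfl⟩ := Finset.mem_image.1 hy
    have h0 := ht z0 hz0
    rw [← card_fst]
    refine le_trans (fiberB hC0 hCL hk hs hsr hr hq ha z0.2 h0.p2 (by linarith [h0.b2]) _ ?_) ?_
    · intro v hv
      obtain ⟨z, hz, rfl⟩ := Finset.mem_image.1 hv
      rw [Finset.mem_filter] at hz
      have h1 := ht z hz.1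
      refine ⟨h1.a2.le, ?_, h1.cone⟩
      rw [← hz.2]; exact h1.orth
    · apply div_le_div_of_nonneg_left (by positivity) (by linarith) h0.b1
  have h1 := card_le_mul t Prod.snd _ hfib
  have h2 : ((t.image Prod.snd).card : ℝ) ≤ (36 * s * b / r + 1) * (25 * b ^ 2) := by
    have h3 := card_dual (t.image Prod.snd) q k r (2 * b) (18 * s * b) hr hq (by linarith)
      (by positivity)
      (by
        intro v hv c
        obtain ⟨z, hz, rfl⟩ := Finset.mem_image.1 hv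
        exact le_trans (abs_le_nz _ _) (ht z hz).b2.le)
      (by
        intro v hv
        obtain ⟨z, hz, rfl⟩ := Finset.mem_image.1 hv
        have hz' := ht z hz
        have hvk : 0 < |(z.1 k : ℝ)| := abs_pos.2 hz'.ne
        have e1 : (z.1 k : ℝ) * (∑ c, (z.2 c : ℝ) * q c)
            = - ∑ c, (z.2 c : ℝ) * ((z.1 c : ℝ) * q k - (z.1 k : ℝ) * q c) := by
          have e2 : ∑ c, (z.2 c : ℝ) * (z.1 c : ℝ) = 0 := by
            rw [← dotZ_real, hz'.orth]; simp
          have e3 : ∑ c, (z.2 c : ℝ) * ((z.1 c : ℝ) * q k - (z.1 k : ℝ) * q c)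
              = (∑ c, (z.2 c : ℝ) * (z.1 c : ℝ)) * q k
                - (z.1 k : ℝ) * ∑ c, (z.2 c : ℝ) * q c := by
            rw [Finset.sum_mul, Finset.mul_sum, ← Finset.sum_sub_distrib]
            apply Finset.sum_congr rfl
            intro c _
            ring
          rw [e3, e2]; ring
        have e4 : |(z.1 k : ℝ)| * |∑ c, (z.2 c : ℝ) * q c| ≤ |(z.1 k : ℝ)| * (18 * s * b) := by
          rw [← abs_mul, e1, abs_neg]
          refine le_trans (Finset.abs_sum_le_sum_abs _ _) ?_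
          have e5 : ∀ c ∈ (Finset.univ : Finset (Fin 3)),
              |(z.2 c : ℝ) * ((z.1 c : ℝ) * q k - (z.1 k : ℝ) * q c)|
                ≤ 2 * b * (3 * s * |(z.1 k : ℝ)|) := by
            intro c _
            rw [abs_mul]
            exact mul_le_mul (le_trans (abs_le_nz _ _) hz'.b2.le) (hz'.cone c)
              (abs_nonneg _) (by linarith)
          refine le_trans (Finset.sum_le_sum e5) ?_
          rw [Finset.sum_const, Finset.card_univ, Fintype.card_fin, nsmul_eq_mul]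
          push_cast
          nlinarith
        exact le_of_mul_le_mul_left e4 hvk)
    refine le_trans h3 ?_
    have h4 : 2 * (2 * b) + 1 ≤ 5 * b := by linarith
    have h5 : (2 * (2 * b) + 1) ^ 2 ≤ 25 * b ^ 2 := by
      calc (2 * (2 * b) + 1) ^ 2 ≤ (5 * b) ^ 2 := pow_le_pow_left₀ (by linarith) h4 2
        _ = 25 * b ^ 2 := by ring
    have h6 : 2 * (18 * s * b / r) + 1 = 36 * s * b / r + 1 := by ring
    rw [h6]
    exact mul_le_mul_of_nonneg_left h5 (by positivity)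
  calc (t.card : ℝ) ≤ _ := h1
    _ ≤ D * (s * a ^ 2) / b * ((36 * s * b / r + 1) * (25 * b ^ 2)) :=
        mul_le_mul_of_nonneg_left h2 (by positivity)
    _ = D * 25 * (a ^ 2 * b ^ 2) * (36 / r * s ^ 2 + s / b) := by field_simp

end boxes

theorem box_bound (h : T_CL) (r : ℝ) (hr : 0 < r) :
    ∃ C : ℝ, 0 ≤ C ∧ ∀ (s : ℝ) (q : V3) (k : Fin 3) (a b : ℝ), 0 < s → 8 * s ≤ r →
      (∀ a, |q a| ≤ |q k|) → r ≤ |q k| → 1 ≤ a → 1 ≤ b → ∀ t : Finset (VZ × VZ),
      (∀ z ∈ t, InBox q k s a b z) →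
      (t.card : ℝ) ≤ C * (a ^ 2 * b ^ 2) *
        (s ^ 2 + 1 / a ^ 2 + s / b + (if b ≤ a ∧ s * a < b then 1 else 0)) := by
  classical
  obtain ⟨CL, hCL⟩ := h
  have hCL' : ∀ (w : VZ) (L : ℝ) (s : Finset VZ), Prim w → nz w ≤ L →
      (∀ v ∈ s, nz v ≤ L ∧ dotZ w v = 0) → (s.card : ℝ) ≤ |CL| * L ^ 2 / nz w := by
    intro w L s h1 h2 h3
    refine le_trans (hCL w L s h1 h2 h3) ?_
    have := nz_nonneg w
    gcongr
    exact le_abs_self CL
  have h0 : 0 ≤ |CL| := abs_nonneg _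
  set D : ℝ := |CL| * (4 * (12 / r + 1) ^ 2 * (4 + 3 * r / 8)) with hD
  have hD0 : 0 ≤ D := by positivity
  refine ⟨500 * |CL| + 40 * |CL| * (144 / r ^ 2 + 1) + D * 25 * (36 / r + 1), by positivity, ?_⟩
  intro s q k a b hs hsr hk hq ha hb t ht
  have hab : 0 < a ^ 2 * b ^ 2 := by positivity
  have ha0 : 0 < a := by linarith
  have hb0 : 0 < b := by linarith
  set E : ℝ := 500 * |CL| + 40 * |CL| * (144 / r ^ 2 + 1) + D * 25 * (36 / r + 1) with hE
  have hE1 : 500 * |CL| ≤ E := by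
    have : 0 ≤ 40 * |CL| * (144 / r ^ 2 + 1) + D * 25 * (36 / r + 1) := by positivity
    linarith
  have hE2 : 40 * |CL| * (144 / r ^ 2 + 1) ≤ E := by
    have : 0 ≤ 500 * |CL| + D * 25 * (36 / r + 1) := by positivity
    linarith
  have hE3 : D * 25 * (36 / r + 1) ≤ E := by
    have : 0 ≤ 500 * |CL| + 40 * |CL| * (144 / r ^ 2 + 1) := by positivity
    linarith
  have hE0 : 0 ≤ E := le_trans (by positivity) hE1
  by_cases hba : b ≤ a
  · by_cases hsa : s * a < b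
    · rw [if_pos ⟨hba, hsa⟩]
      refine le_trans (boundA h0 hCL' ha hb hba t ht) ?_
      have h1 : (1 : ℝ) ≤ s ^ 2 + 1 / a ^ 2 + s / b + 1 := by
        have : 0 ≤ s ^ 2 + 1 / a ^ 2 + s / b := by positivity
        linarith
      calc 500 * |CL| * (a ^ 2 * b ^ 2) ≤ E * (a ^ 2 * b ^ 2) :=
            mul_le_mul_of_nonneg_right hE1 hab.le
        _ = E * (a ^ 2 * b ^ 2) * 1 := by ring
        _ ≤ _ := mul_le_mul_of_nonneg_left h1 (by positivity)
    · rw [if_neg (by tauto), add_zero]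
      refine le_trans (boundB h0 hCL' hk hs hsr hr hq ha hb (not_lt.1 hsa) t ht) ?_
      have h1 : 36 / r * s ^ 2 + s / b ≤ (36 / r + 1) * (s ^ 2 + 1 / a ^ 2 + s / b) := by
        have e1 : 0 ≤ s ^ 2 := by positivity
        have e2 : 0 ≤ 36 / r * (1 / a ^ 2 + s / b) := by positivity
        have e3 : 0 ≤ 1 / a ^ 2 := by positivity
        nlinarith
      calc D * 25 * (a ^ 2 * b ^ 2) * (36 / r * s ^ 2 + s / b)
          ≤ D * 25 * (a ^ 2 * b ^ 2) * ((36 / r + 1) * (s ^ 2 + 1 / a ^ 2 + s / b)) :=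
            mul_le_mul_of_nonneg_left h1 (by positivity)
        _ = (D * 25 * (36 / r + 1)) * ((a ^ 2 * b ^ 2) * (s ^ 2 + 1 / a ^ 2 + s / b)) := by ring
        _ ≤ E * ((a ^ 2 * b ^ 2) * (s ^ 2 + 1 / a ^ 2 + s / b)) :=
            mul_le_mul_of_nonneg_right hE3 (by positivity)
        _ = _ := by ring
  · rw [if_neg (by tauto), add_zero]
    refine le_trans (boundC h0 hCL' hs hr hq ha hb (le_of_lt (not_le.1 hba)) t ht) ?_
    have h1 : 144 / r ^ 2 * s ^ 2 + 1 / a ^ 2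
        ≤ (144 / r ^ 2 + 1) * (s ^ 2 + 1 / a ^ 2 + s / b) := by
      have e1 : 0 ≤ s ^ 2 := by positivity
      have e2 : 0 ≤ 144 / r ^ 2 * (1 / a ^ 2 + s / b) := by positivity
      have e3 : 0 ≤ s / b := by positivity
      nlinarith
    calc 40 * |CL| * (a ^ 2 * b ^ 2) * (144 / r ^ 2 * s ^ 2 + 1 / a ^ 2)
        ≤ 40 * |CL| * (a ^ 2 * b ^ 2) * ((144 / r ^ 2 + 1) * (s ^ 2 + 1 / a ^ 2 + s / b)) :=
          mul_le_mul_of_nonneg_left h1 (by positivity)
      _ = (40 * |CL| * (144 / r ^ 2 + 1)) * ((a ^ 2 * b ^ 2) * (s ^ 2 + 1 / a ^ 2 + s / b)) := by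
          ring
      _ ≤ E * ((a ^ 2 * b ^ 2) * (s ^ 2 + 1 / a ^ 2 + s / b)) :=
          mul_le_mul_of_nonneg_right hE2 (by positivity)
      _ = _ := by ring

/-- dyadic index of a primitive vector -/
noncomputable def idx (v : VZ) : ℕ := Nat.log 2 ⌊nz v⌋₊

theorem idx_lower {v : VZ} (h : Prim v) : (2 : ℝ) ^ idx v ≤ nz v := by
  have h1 := one_le_nz h
  have h2 : ⌊nz v⌋₊ ≠ 0 := by
    have : 1 ≤ ⌊nz v⌋₊ := Nat.le_floor (by simpa using h1)
    omega
  have h3 : 2 ^ idx v ≤ ⌊nz v⌋₊ := Nat.pow_log_le_self 2 h2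
  calc (2 : ℝ) ^ idx v = ((2 ^ idx v : ℕ) : ℝ) := by push_cast; rfl
    _ ≤ (⌊nz v⌋₊ : ℝ) := by exact_mod_cast h3
    _ ≤ nz v := Nat.floor_le (nz_nonneg v)

theorem idx_upper (v : VZ) : nz v < 2 * (2 : ℝ) ^ idx v := by
  have h3 : ⌊nz v⌋₊ < 2 ^ (idx v + 1) := Nat.lt_pow_succ_log_self (by norm_num) _
  have h4 : ⌊nz v⌋₊ + 1 ≤ 2 ^ (idx v + 1) := h3
  calc nz v < (⌊nz v⌋₊ : ℝ) + 1 := Nat.lt_floor_add_one _
    _ ≤ ((2 ^ (idx v + 1) : ℕ) : ℝ) := by exact_mod_cast h4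
    _ = 2 * (2 : ℝ) ^ idx v := by push_cast; ring

theorem idx_le (v : VZ) (X : ℝ) (h : nz v ≤ X) : idx v ≤ Nat.log 2 ⌊X⌋₊ :=
  Nat.log_mono_right (Nat.floor_le_floor h)

theorem log_bound (X : ℝ) (hX : 2 ≤ X) : ((Nat.log 2 ⌊X⌋₊ + 1 : ℕ) : ℝ) ≤ 3 * Real.log X := by
  have hX0 : 0 < X := by linarith
  have h2 : ⌊X⌋₊ ≠ 0 := by
    have : 2 ≤ ⌊X⌋₊ := Nat.le_floor (by simpa using hX)
    omega
  have h3 : 2 ^ Nat.log 2 ⌊X⌋₊ ≤ ⌊X⌋₊ := Nat.pow_log_le_self 2 h2
  have h4 : (2 : ℝ) ^ Nat.log 2 ⌊X⌋₊ ≤ X := by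
    calc (2 : ℝ) ^ Nat.log 2 ⌊X⌋₊ = ((2 ^ Nat.log 2 ⌊X⌋₊ : ℕ) : ℝ) := by push_cast; rfl
      _ ≤ (⌊X⌋₊ : ℝ) := by exact_mod_cast h3
      _ ≤ X := Nat.floor_le hX0.le
  have h5 : (Nat.log 2 ⌊X⌋₊ : ℝ) * Real.log 2 ≤ Real.log X := by
    rw [← Real.log_pow]
    exact Real.log_le_log (by positivity) h4
  have h6 : Real.log 2 ≤ Real.log X := Real.log_le_log (by norm_num) hX
  have h7 : (0.6931471803 : ℝ) < Real.log 2 := Real.log_two_gt_d9
  push_cast
  have h8 : ((Nat.log 2 ⌊X⌋₊ : ℝ) + 1) * Real.log 2 ≤ 2 * Real.log X := by linarith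
  have h9 : 0 ≤ (Nat.log 2 ⌊X⌋₊ : ℝ) + 1 := by positivity
  nlinarith

theorem sum_inv_four (N : ℕ) : ∑ i ∈ Finset.range N, 1 / ((2 : ℝ) ^ i) ^ 2 ≤ 2 := by
  have h : ∀ N : ℕ, ∑ i ∈ Finset.range N, 1 / ((2 : ℝ) ^ i) ^ 2
      ≤ 2 - 2 * (1 / ((2 : ℝ) ^ N) ^ 2) := by
    intro N
    induction N with
    | zero => simp
    | succ n ih =>
      rw [Finset.sum_range_succ]
      have e : ((2 : ℝ) ^ (n + 1)) ^ 2 = 4 * ((2 : ℝ) ^ n) ^ 2 := by ring
      have e2 : 1 / (4 * ((2 : ℝ) ^ n) ^ 2) = 1 / 4 * (1 / ((2 : ℝ) ^ n) ^ 2) := by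
        field_simp
      rw [e, e2]
      have hp2 : 0 < 1 / ((2 : ℝ) ^ n) ^ 2 := by positivity
      linarith
  have h2 : 0 < 1 / ((2 : ℝ) ^ N) ^ 2 := by positivity
  linarith [h N]

theorem sum_inv_two (N : ℕ) : ∑ i ∈ Finset.range N, 1 / (2 : ℝ) ^ i ≤ 2 := by
  have h : ∀ N : ℕ, ∑ i ∈ Finset.range N, 1 / (2 : ℝ) ^ i ≤ 2 - 2 * (1 / (2 : ℝ) ^ N) := by
    intro N
    induction N with
    | zero => simp
    | succ n ih =>
      rw [Finset.sum_range_succ]
      have e : (2 : ℝ) ^ (n + 1) = 2 * (2 : ℝ) ^ n := by ring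
      have e2 : 1 / (2 * (2 : ℝ) ^ n) = 1 / 2 * (1 / (2 : ℝ) ^ n) := by
        field_simp
      rw [e, e2]
      have hp2 : 0 < 1 / (2 : ℝ) ^ n := by positivity
      linarith
  have h2 : 0 < 1 / (2 : ℝ) ^ N := by positivity
  linarith [h N]

theorem sum_diag (s : ℝ) (K N : ℕ) (hK : 1 ≤ s * 2 ^ K) :
    ∑ p ∈ Finset.range N ×ˢ Finset.range N,
      (if (2 : ℝ) ^ p.2 ≤ (2 : ℝ) ^ p.1 ∧ s * (2 : ℝ) ^ p.1 < (2 : ℝ) ^ p.2 then (1 : ℝ) else 0)
      ≤ (K : ℝ) * N := by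
  classical
  rw [Finset.sum_product_right]
  have key : ∀ j ∈ Finset.range N, ∑ i ∈ Finset.range N,
      (if (2 : ℝ) ^ j ≤ (2 : ℝ) ^ i ∧ s * (2 : ℝ) ^ i < (2 : ℝ) ^ j then (1 : ℝ) else 0)
      ≤ (K : ℝ) := by
    intro j _
    rw [← Finset.sum_filter, Finset.sum_const, nsmul_eq_mul, mul_one]
    have hsub : (Finset.range N).filter
        (fun i => (2 : ℝ) ^ j ≤ (2 : ℝ) ^ i ∧ s * (2 : ℝ) ^ i < (2 : ℝ) ^ j)
        ⊆ Finset.Ico j (j + K) := by
      intro i hi
      rw [Finset.mem_filter] at hi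
      rw [Finset.mem_Ico]
      obtain ⟨-, h1, h2⟩ := hi
      refine ⟨(pow_le_pow_iff_right₀ (by norm_num)).1 h1, ?_⟩
      by_contra h3
      rw [not_lt] at h3
      have h4 : (2 : ℝ) ^ (j + K) ≤ (2 : ℝ) ^ i := pow_le_pow_right₀ (by norm_num) h3
      have hs : 0 < s := by
        by_contra h5
        rw [not_lt] at h5
        have : s * 2 ^ K ≤ 0 := mul_nonpos_of_nonpos_of_nonneg h5 (by positivity)
        linarith
      have h5 : s * (2 : ℝ) ^ (j + K) ≤ s * (2 : ℝ) ^ i := mul_le_mul_of_nonneg_left h4 hs.le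
      have h6 : s * (2 : ℝ) ^ (j + K) = (s * 2 ^ K) * 2 ^ j := by ring
      have h7 : (0 : ℝ) < 2 ^ j := by positivity
      nlinarith
    have := Finset.card_le_card hsub
    rw [Nat.card_Ico] at this
    have h8 : j + K - j = K := by omega
    rw [h8] at this
    exact_mod_cast this
  refine le_trans (Finset.sum_le_sum key) ?_
  rw [Finset.sum_const, Finset.card_range, nsmul_eq_mul, mul_comm]

theorem cq (h : T_CL) : T_CQ := by
  classical
  intro r R hr hrR
  obtain ⟨C, hC0, hC⟩ := box_bound h r hr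
  refine ⟨27 * C / r, ?_⟩
  intro s hs hsr
  obtain ⟨K, hK⟩ : ∃ K : ℕ, 1 ≤ s * 2 ^ K := by
    obtain ⟨K, hK⟩ := pow_unbounded_of_one_lt (1 / s) (by norm_num : (1 : ℝ) < 2)
    refine ⟨K, ?_⟩
    rw [div_lt_iff₀ hs] at hK
    linarith
  refine ⟨3 * (3 * s * C / r) * (2 + 2 * s + K), ?_⟩
  intro q X t hq1 hq2 hX ht
  -- the maximal coordinate
  obtain ⟨k, -, hk⟩ := Finset.exists_max_image (Finset.univ : Finset (Fin 3)) (fun a => |q a|)
    Finset.univ_nonempty
  have hk' : ∀ a, |q a| ≤ |q k| := fun a => hk a (Finset.mem_univ a)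
  have hqk : r ≤ |q k| := by
    refine le_trans hq1 ?_
    rw [pi_norm_le_iff_of_nonneg (abs_nonneg _)]
    intro a
    rw [Real.norm_eq_abs]
    exact hk' a
  set N : ℕ := Nat.log 2 ⌊X⌋₊ + 1 with hN
  have hNX : (N : ℝ) ≤ 3 * Real.log X := log_bound X hX
  have hN0 : (0 : ℝ) ≤ N := by positivity
  set t' := t.filter (fun z => theta (Metric.ball q s) z.1 ≠ 0) with ht'
  set f : VZ × VZ → ℝ := fun z =>
    (theta (Metric.ball q s) z.1).toReal / (nz z.1 ^ 2 * nz z.2 ^ 2) with hf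
  have e1 : ∑ z ∈ t, f z = ∑ z ∈ t', f z := by
    rw [ht', Finset.sum_filter]
    apply Finset.sum_congr rfl
    intro z _
    split_ifs with h1
    · rfl
    · rw [not_not] at h1
      simp [hf, h1]
  set box : VZ × VZ → ℕ × ℕ := fun z => (idx z.1, idx z.2) with hbox
  have hmaps : ∀ z ∈ t', box z ∈ Finset.range N ×ˢ Finset.range N := by
    intro z hz
    rw [ht', Finset.mem_filter] at hz
    obtain ⟨-, -, -, x1, x2⟩ := ht z hz.1
    rw [Finset.mem_product, Finset.mem_range, Finset.mem_range]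
    exact ⟨Nat.lt_succ_of_le (idx_le _ X x1), Nat.lt_succ_of_le (idx_le _ X x2)⟩
  have e2 : ∑ z ∈ t', f z = ∑ p ∈ Finset.range N ×ˢ Finset.range N,
      ∑ z ∈ t'.filter (fun z => box z = p), f z := by
    rw [Finset.sum_fiberwise_of_maps_to hmaps]
  have key : ∀ p ∈ Finset.range N ×ˢ Finset.range N,
      ∑ z ∈ t'.filter (fun z => box z = p), f z ≤
        (3 * s / r * C) * (s ^ 2 + 1 / ((2 : ℝ) ^ p.1) ^ 2 + s * (1 / (2 : ℝ) ^ p.2) +
        (if (2 : ℝ) ^ p.2 ≤ (2 : ℝ) ^ p.1 ∧ s * (2 : ℝ) ^ p.1 < (2 : ℝ) ^ p.2 then (1 : ℝ)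
          else 0)) := by
    intro p _
    set a : ℝ := (2 : ℝ) ^ p.1 with ha
    set b : ℝ := (2 : ℝ) ^ p.2 with hb
    have ha1 : 1 ≤ a := one_le_pow₀ (by norm_num)
    have hb1 : 1 ≤ b := one_le_pow₀ (by norm_num)
    have hbx : ∀ z ∈ t'.filter (fun z => box z = p), InBox q k s a b z := by
      intro z hz
      rw [Finset.mem_filter, ht', Finset.mem_filter] at hz
      obtain ⟨⟨hz1, hz2⟩, hz3⟩ := hz
      obtain ⟨p1, p2, o, x1, x2⟩ := ht z hz1
      obtain ⟨n, c⟩ := cone_of_theta hk' hs hsr hqk z.1 hz2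
      have i1 : idx z.1 = p.1 := by rw [← hz3]
      have i2 : idx z.2 = p.2 := by rw [← hz3]
      refine ⟨p1, p2, o, ?_, ?_, ?_, ?_, c, n⟩
      · rw [ha, ← i1]; exact idx_lower p1
      · rw [ha, ← i1]; exact idx_upper _
      · rw [hb, ← i2]; exact idx_lower p2
      · rw [hb, ← i2]; exact idx_upper _
    have hcard := hC s q k a b hs hsr hk' hqk ha1 hb1 _ hbx
    have hfz : ∀ z ∈ t'.filter (fun z => box z = p), f z ≤ 3 * s / r / (a ^ 2 * b ^ 2) := by
      intro z hz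
      have hz' := hbx z hz
      have ha0 : 0 < a := by linarith
      have hb0 : 0 < b := by linarith
      apply div_le_div₀ (by positivity) (theta_le hk' hs hsr hqk z.1) (by positivity)
      have g1 : a ^ 2 ≤ nz z.1 ^ 2 := pow_le_pow_left₀ ha0.le hz'.a1 2
      have g2 : b ^ 2 ≤ nz z.2 ^ 2 := pow_le_pow_left₀ hb0.le hz'.b1 2
      exact mul_le_mul g1 g2 (by positivity) (by positivity)
    refine le_trans (Finset.sum_le_card_nsmul _ _ _ hfz) ?_
    rw [nsmul_eq_mul]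
    have ha0 : 0 < a := by linarith
    have hb0 : 0 < b := by linarith
    set J : ℝ := (if b ≤ a ∧ s * a < b then (1 : ℝ) else 0) with hJ
    calc ((t'.filter (fun z => box z = p)).card : ℝ) * (3 * s / r / (a ^ 2 * b ^ 2))
        ≤ (C * (a ^ 2 * b ^ 2) * (s ^ 2 + 1 / a ^ 2 + s / b + J)) *
            (3 * s / r / (a ^ 2 * b ^ 2)) :=
          mul_le_mul_of_nonneg_right hcard (by positivity)
      _ = (3 * s / r * C) * (s ^ 2 + 1 / a ^ 2 + s * (1 / b) + J) := by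
          field_simp
  have e3 : ∑ z ∈ t, f z ≤ (3 * s / r * C) * (N ^ 2 * s ^ 2 + 2 * N + s * (2 * N) + K * N) := by
    rw [e1, e2]
    refine le_trans (Finset.sum_le_sum key) ?_
    rw [← Finset.mul_sum]
    apply mul_le_mul_of_nonneg_left _ (by positivity)
    rw [Finset.sum_add_distrib, Finset.sum_add_distrib, Finset.sum_add_distrib]
    have s1 : ∑ p ∈ Finset.range N ×ˢ Finset.range N, s ^ 2 = (N : ℝ) ^ 2 * s ^ 2 := by
      rw [Finset.sum_const, Finset.card_product, Finset.card_range, nsmul_eq_mul]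
      push_cast; ring
    have s2 : ∑ p ∈ Finset.range N ×ˢ Finset.range N, 1 / ((2 : ℝ) ^ p.1) ^ 2 ≤ 2 * (N : ℝ) := by
      rw [Finset.sum_product_right]
      refine le_trans (Finset.sum_le_sum (fun j _ => sum_inv_four N)) ?_
      rw [Finset.sum_const, Finset.card_range, nsmul_eq_mul, mul_comm]
    have s3 : ∑ p ∈ Finset.range N ×ˢ Finset.range N, s * (1 / (2 : ℝ) ^ p.2)
        ≤ s * (2 * (N : ℝ)) := by
      rw [← Finset.mul_sum, Finset.sum_product]
      apply mul_le_mul_of_nonneg_left _ hs.le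
      refine le_trans (Finset.sum_le_sum (fun j _ => sum_inv_two N)) ?_
      rw [Finset.sum_const, Finset.card_range, nsmul_eq_mul, mul_comm]
    have s4 := sum_diag s K N hK
    rw [s1]
    linarith
  refine le_trans e3 ?_
  have hlog : 0 ≤ Real.log X := Real.log_nonneg (by linarith)
  have g1 : (N : ℝ) ^ 2 ≤ 9 * Real.log X ^ 2 := by
    calc (N : ℝ) ^ 2 ≤ (3 * Real.log X) ^ 2 := pow_le_pow_left₀ hN0 hNX 2
      _ = 9 * Real.log X ^ 2 := by ring
  have g2 : (N : ℝ) ^ 2 * s ^ 2 + 2 * N + s * (2 * N) + K * N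
      ≤ 9 * Real.log X ^ 2 * s ^ 2 + (2 + 2 * s + K) * (3 * Real.log X) := by
    have g3 : (N : ℝ) ^ 2 * s ^ 2 ≤ 9 * Real.log X ^ 2 * s ^ 2 :=
      mul_le_mul_of_nonneg_right g1 (by positivity)
    have g4 : (2 + 2 * s + K) * (N : ℝ) ≤ (2 + 2 * s + K) * (3 * Real.log X) :=
      mul_le_mul_of_nonneg_left hNX (by positivity)
    linarith
  calc (3 * s / r * C) * (N ^ 2 * s ^ 2 + 2 * N + s * (2 * N) + K * N)
      ≤ (3 * s / r * C) * (9 * Real.log X ^ 2 * s ^ 2 + (2 + 2 * s + K) * (3 * Real.log X)) :=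
        mul_le_mul_of_nonneg_left g2 (by positivity)
    _ = 27 * C / r * s ^ 3 * Real.log X ^ 2
        + 3 * (3 * s * C / r) * (2 + 2 * s + K) * Real.log X := by
        field_simp; ring

end KF83
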