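import Mathlib
import Pool.Agent.H22.KF.Targets

/-!
# MP_3fd637_nt, module EX: the two explicit faces
-/

open MeasureTheory Filter Topology
open scoped ENNReal

namespace KF83EX

open KF

/-- barycentric membership in the triangle with vertices `p i` -/
def InT (p : Fin 3 → Fin 2 → ℝ) (x y : ℝ) : Prop :=
  ∃ a b c : ℝ, 0 ≤ a ∧ 0 ≤ b ∧ 0 ≤ c ∧ a + b + c = 1 ∧
    x = a * p 0 0 + b * p 1 0 + c * p 2 0 ∧ y = a * p 0 1 + b * p 1 1 + c * p 2 1

theorem lift0 (p : Fin 3 → Fin 2 → ℝ) (i : Fin 3) : liftP (n := 2) p i 0 = p i 0 := rfl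
theorem lift1 (p : Fin 3 → Fin 2 → ℝ) (i : Fin 3) : liftP (n := 2) p i 1 = p i 1 := rfl
theorem lift2 (p : Fin 3 → Fin 2 → ℝ) (i : Fin 3) : liftP (n := 2) p i 2 = 1 := rfl

/-- determinant of three points -/
def DD (a b c d e f : ℝ) : ℝ := a * (d - f) - b * (c - e) + (c * f - e * d)

theorem detP_eq (p : Fin 3 → Fin 2 → ℝ) :
    detP (n := 2) p = DD (p 0 0) (p 0 1) (p 1 0) (p 1 1) (p 2 0) (p 2 1) := by
  unfold detP DD
  rw [Matrix.det_fin_three]
  simp only [Matrix.of_apply, lift0, lift1, lift2]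
  ring

theorem vecMul3 (c : V3) (r : Fin 3 → V3) (j : Fin 3) :
    Matrix.vecMul c (Matrix.of r) j = c 0 * r 0 j + c 1 * r 1 j + c 2 * r 2 j := by
  rw [Matrix.vecMul, dotProduct, Fin.sum_univ_three]
  simp only [Matrix.of_apply]

theorem coef_iff (r : Fin 3 → V3) (hr : Matrix.det (Matrix.of r) ≠ 0) (P c : V3) :
    coef r P = c ↔ Matrix.vecMul c (Matrix.of r) = P := by
  have hu : IsUnit (Matrix.of r).det := isUnit_iff_ne_zero.2 hr
  unfold coef
  constructor
  · rintro rfl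
    rw [Matrix.vecMul_vecMul, Matrix.nonsing_inv_mul _ hu, Matrix.vecMul_one]
  · rintro rfl
    rw [Matrix.vecMul_vecMul, Matrix.mul_nonsing_inv _ hu, Matrix.vecMul_one]

theorem in_iff (p : Fin 3 → Fin 2 → ℝ) (hp : detP (n := 2) p ≠ 0) (x y : ℝ) :
    (∀ i, 0 ≤ coef (liftP (n := 2) p) ![x, y, 1] i * liftP (n := 2) p i 2) ↔ InT p x y := by
  have h := coef_iff (liftP (n := 2) p) hp ![x, y, 1]
  constructor
  · intro h1
    have h2 := (h _).1 rfl
    have e0 := congrFun h2 0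
    have e1 := congrFun h2 1
    have e2 := congrFun h2 2
    rw [vecMul3] at e0 e1 e2
    simp only [lift0, lift1, lift2, Matrix.cons_val] at e0 e1 e2
    refine ⟨_, _, _, by simpa [lift2] using h1 0, by simpa [lift2] using h1 1,
      by simpa [lift2] using h1 2, by linarith, e0.symm, e1.symm⟩
  · rintro ⟨a, b, c, ha, hb, hc, h1, hx, hy⟩
    have h2 : coef (liftP (n := 2) p) ![x, y, 1] = ![a, b, c] := by
      rw [h]
      funext j
      rw [vecMul3]
      fin_cases j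
      · simp [lift0, hx]
      · simp [lift1, hy]
      · simp [lift2, h1]
    intro i
    rw [h2, lift2, mul_one]
    fin_cases i <;> simp [ha, hb, hc]

theorem uf_iff (S : Finset (ℤ × ℤ)) (p : Fin 3 → Fin 2 → ℝ) (hp : detP (n := 2) p ≠ 0) :
    UF S (liftP (n := 2) p) ↔
      ∀ x y : ℤ, (InT p x y ↔ (![(x : ℝ), (y : ℝ), 1] : V3) ∈ poly S) := by
  unfold UF
  constructor
  · rintro ⟨-, h⟩ x y
    rw [← in_iff p hp]
    exact h x y
  · intro h
    refine ⟨fun i => by rw [lift2]; norm_num, fun x y => ?_⟩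
    rw [in_iff p hp]
    exact h x y

theorem inT_convex (p : Fin 3 → Fin 2 → ℝ) {x y x' y' t : ℝ} (h : InT p x y) (h' : InT p x' y')
    (ht : 0 ≤ t) (ht1 : t ≤ 1) : InT p (t * x + (1 - t) * x') (t * y + (1 - t) * y') := by
  obtain ⟨a, b, c, ha, hb, hc, h1, hx, hy⟩ := h
  obtain ⟨a', b', c', ha', hb', hc', h1', hx', hy'⟩ := h'
  have h2 : 0 ≤ 1 - t := by linarith
  refine ⟨t * a + (1 - t) * a', t * b + (1 - t) * b', t * c + (1 - t) * c', by positivity,
    by positivity, by positivity, ?_, ?_, ?_⟩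
  · calc t * a + (1 - t) * a' + (t * b + (1 - t) * b') + (t * c + (1 - t) * c')
        = t * (a + b + c) + (1 - t) * (a' + b' + c') := by ring
      _ = 1 := by rw [h1, h1']; ring
  · rw [hx, hx']; ring
  · rw [hy, hy']; ring

theorem inT_vertex (p : Fin 3 → Fin 2 → ℝ) (i : Fin 3) : InT p (p i 0) (p i 1) := by
  fin_cases i
  · exact ⟨1, 0, 0, by norm_num, by norm_num, by norm_num, by norm_num, by simp, by simp⟩
  · exact ⟨0, 1, 0, by norm_num, by norm_num, by norm_num, by norm_num, by simp, by simp⟩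
  · exact ⟨0, 0, 1, by norm_num, by norm_num, by norm_num, by norm_num, by simp, by simp⟩

/-- the chord argument -/
theorem chord (In : ℝ → ℝ → Prop)
    (hconv : ∀ x y x' y' t : ℝ, In x y → In x' y' → 0 ≤ t → t ≤ 1 →
      In (t * x + (1 - t) * x') (t * y + (1 - t) * y'))
    (h0 : In 0 0) (h2 : In 2 0) (hint : ∀ x y : ℤ, In x y → 0 ≤ y ∧ y ≤ 3)
    (X Y : ℝ) (hXY : In X Y) : |Y| ≤ 8 := by
  have key : ∀ (t : ℝ) (L : ℤ), 0 ≤ t → t ≤ 1 / 2 → t * Y = L → (L < 0 ∨ 3 < L) → False := by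
    intro t L ht ht2 hL hL2
    set n : ℤ := ⌈t * X⌉ with hn
    have hn1 := Int.le_ceil (t * X)
    have hn2 := Int.ceil_lt_add_one (t * X)
    rw [← hn] at hn1 hn2
    set a : ℝ := ((n : ℝ) - t * X) / (1 - t) with ha
    have h1t : 0 < 1 - t := by linarith
    have ha0 : 0 ≤ a := div_nonneg (by linarith) h1t.le
    have ha2 : a ≤ 2 := by
      rw [ha, div_le_iff₀ h1t]; linarith
    have hina : In a 0 := by
      have := hconv 2 0 0 0 (a / 2) h2 h0 (by positivity) (by linarith)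
      have e1 : a / 2 * 2 + (1 - a / 2) * 0 = a := by ring
      have e2 : a / 2 * 0 + (1 - a / 2) * 0 = 0 := by ring
      rwa [e1, e2] at this
    have h3 := hconv X Y a 0 t hXY hina ht (by linarith)
    have e1 : t * X + (1 - t) * a = (n : ℝ) := by
      rw [ha]; field_simp; ring
    have e2 : t * Y + (1 - t) * 0 = (L : ℝ) := by rw [hL]; ring
    rw [e1, e2] at h3
    have := hint n L h3
    omega
  by_contra hY
  rw [not_le] at hY
  rcases le_or_gt 0 Y with hY0 | hY0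
  · rw [abs_of_nonneg hY0] at hY
    refine key (4 / Y) 4 (by positivity) ?_ ?_ (Or.inr (by norm_num))
    · rw [div_le_iff₀ (by linarith)]; linarith
    · push_cast; field_simp
  · rw [abs_of_neg hY0] at hY
    refine key (-1 / Y) (-1) ?_ ?_ ?_ (Or.inl (by norm_num))
    · exact div_nonneg_of_nonpos (by norm_num) hY0.le
    · rw [div_le_iff_of_neg hY0]; linarith
    · have : Y ≠ 0 := hY0.ne
      push_cast; field_simp

theorem relCpt_of (hF : T_FACE) (S : Finset (ℤ × ℤ)) (hS : Dim2 S)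
    (h00 : (![0, 0, 1] : V3) ∈ poly S) (h20 : (![2, 0, 1] : V3) ∈ poly S)
    (h02 : (![0, 2, 1] : V3) ∈ poly S)
    (hsub : ∀ x y : ℤ, (![(x : ℝ), (y : ℝ), 1] : V3) ∈ poly S → (0 ≤ x ∧ x ≤ 3) ∧ 0 ≤ y ∧ y ≤ 3) :
    RelCpt S := by
  refine ⟨8, ?_⟩
  intro p hp hface i j
  have hUF := (hF S (liftP (n := 2) p) hS hp (fun i => Or.inl (by rw [lift2]; norm_num))).1 hface
  rw [uf_iff S p hp] at hUF
  have i00 : InT p 0 0 := by
    have := (hUF 0 0).2 (by simpa using h00)
    simpa using this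
  have i20 : InT p 2 0 := by
    have := (hUF 2 0).2 (by simpa using h20)
    simpa using this
  have i02 : InT p 0 2 := by
    have := (hUF 0 2).2 (by simpa using h02)
    simpa using this
  have hj : j = 0 ∨ j = 1 := by omega
  rcases hj with rfl | rfl
  · refine chord (fun a b => InT p b a) ?_ i00 i02 ?_ (p i 1) (p i 0) (inT_vertex p i)
    · intro x y x' y' t h1 h2 h3 h4
      exact inT_convex p h1 h2 h3 h4
    · intro x y h
      exact (hsub y x ((hUF y x).1 h)).1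
  · refine chord (fun a b => InT p a b) ?_ i00 i20 ?_ (p i 0) (p i 1) (inT_vertex p i)
    · intro x y x' y' t h1 h2 h3 h4
      exact inT_convex p h1 h2 h3 h4
    · intro x y h
      exact (hsub x y ((hUF x y).1 h)).2

/-- the two triangles at once -/
def SB (β : ℤ) : Finset (ℤ × ℤ) := {(0, 0), (2, 0), (0, β)}

theorem poly_SB (β : ℤ) (hβ : 0 < β) (x y : ℝ) :
    (![x, y, 1] : V3) ∈ poly (SB β) ↔ 0 ≤ x ∧ 0 ≤ y ∧ β * x + 2 * y ≤ 2 * β := by
  have hβ' : (0 : ℝ) < β := by exact_mod_cast hβ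
  constructor
  · intro h
    have hconv : Convex ℝ {P : V3 | 0 ≤ P 0 ∧ 0 ≤ P 1 ∧ β * P 0 + 2 * P 1 ≤ 2 * β} := by
      intro P hP Q hQ a b ha hb hab
      simp only [Set.mem_ofPred_eq, Pi.add_apply, Pi.smul_apply, smul_eq_mul] at hP hQ ⊢
      obtain ⟨p1, p2, p3⟩ := hP
      obtain ⟨q1, q2, q3⟩ := hQ
      refine ⟨by positivity, by positivity, ?_⟩
      have e : (2 : ℝ) * β = a * (2 * β) + b * (2 * β) := by rw [← add_mul, hab, one_mul]
      rw [e]
      have := mul_le_mul_of_nonneg_left p3 ha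
      have := mul_le_mul_of_nonneg_left q3 hb
      linarith
    have hsub : poly (SB β) ⊆ {P : V3 | 0 ≤ P 0 ∧ 0 ≤ P 1 ∧ β * P 0 + 2 * P 1 ≤ 2 * β} := by
      apply convexHull_min _ hconv
      rintro _ ⟨s, hs, rfl⟩
      simp only [SB, Finset.coe_insert, Finset.coe_singleton, Set.mem_insert_iff,
        Set.mem_singleton_iff] at hs
      rcases hs with rfl | rfl | rfl
      · simp; exact hβ.le
      · simp; linarith
      · simp; exact hβ.le
    have := hsub h
    simpa using this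
  · rintro ⟨hx, hy, hxy⟩
    have hc := convex_convexHull ℝ
      ((fun s : ℤ × ℤ => (![(s.1 : ℝ), (s.2 : ℝ), 1] : Vec 2)) '' (SB β : Set (ℤ × ℤ)))
    have := hc.sum_mem (t := (Finset.univ : Finset (Fin 3)))
      (w := ![1 - x / 2 - y / β, x / 2, y / β])
      (z := ![![0, 0, 1], ![2, 0, 1], ![0, (β : ℝ), 1]])
      (by
        intro i _
        fin_cases i
        · have e : 1 - x / 2 - y / β = (2 * β - (β * x + 2 * y)) / (2 * β) := by
            field_simp; ring
          show 0 ≤ 1 - x / 2 - y / β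
          rw [e]
          exact div_nonneg (by linarith) (by positivity)
        · show 0 ≤ x / 2
          positivity
        · show 0 ≤ y / β
          positivity)
      (by
        rw [Fin.sum_univ_three]
        show 1 - x / 2 - y / β + x / 2 + y / β = 1
        ring)
      (by
        intro i _
        apply subset_convexHull
        fin_cases i
        · exact ⟨(0, 0), by simp [SB], by simp⟩
        · exact ⟨(2, 0), by simp [SB], by simp⟩
        · exact ⟨(0, β), by simp [SB], by simp⟩)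
    rw [Fin.sum_univ_three] at this
    have e : (![1 - x / 2 - y / β, x / 2, y / β] : Fin 3 → ℝ) 0 •
        (![![0, 0, 1], ![2, 0, 1], ![0, (β : ℝ), 1]] : Fin 3 → V3) 0
        + (![1 - x / 2 - y / β, x / 2, y / β] : Fin 3 → ℝ) 1 •
        (![![0, 0, 1], ![2, 0, 1], ![0, (β : ℝ), 1]] : Fin 3 → V3) 1
        + (![1 - x / 2 - y / β, x / 2, y / β] : Fin 3 → ℝ) 2 •
        (![![0, 0, 1], ![2, 0, 1], ![0, (β : ℝ), 1]] : Fin 3 → V3) 2 = ![x, y, 1] := by
      funext j
      fin_cases j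
      · simp
      · simp; field_simp
      · simp; ring
    exact e ▸ this

theorem dim2_SB (β : ℤ) (hβ : 0 < β) : Dim2 (SB β) := by
  refine ⟨(0, 0), by simp [SB], (2, 0), by simp [SB], (0, β), by simp [SB], ?_⟩
  simp
  omega

theorem relCpt_SB (hF : T_FACE) (β : ℤ) (hβ : 2 ≤ β) (hβ3 : β ≤ 3) : RelCpt (SB β) := by
  have hβ0 : 0 < β := by omega
  have hβr : (2 : ℝ) ≤ β := by exact_mod_cast hβ
  have hβr3 : (β : ℝ) ≤ 3 := by exact_mod_cast hβ3
  refine relCpt_of hF _ (dim2_SB β hβ0) ?_ ?_ ?_ ?_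
  · rw [poly_SB β hβ0]; refine ⟨le_refl _, le_refl _, by linarith⟩
  · rw [poly_SB β hβ0]; refine ⟨by norm_num, le_refl _, by linarith⟩
  · rw [poly_SB β hβ0]; refine ⟨le_refl _, by norm_num, by linarith⟩
  · intro x y h
    rw [poly_SB β hβ0] at h
    obtain ⟨hx, hy, hxy⟩ := h
    have hx' : 0 ≤ x := by exact_mod_cast hx
    have hy' : 0 ≤ y := by exact_mod_cast hy
    have hxy' : β * x + 2 * y ≤ 2 * β := by exact_mod_cast hxy
    refine ⟨⟨hx', ?_⟩, hy', ?_⟩
    · nlinarith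
    · have : 0 ≤ β * x := by positivity
      omega

/-- the open set of triangles -/
def U (β : ℤ) : Set (Fin 3 → Fin 2 → ℝ) :=
  {p | 0 < DD (p 0 0) (p 0 1) (p 1 0) (p 1 1) (p 2 0) (p 2 1) ∧
    (0 < DD 0 0 (p 1 0) (p 1 1) (p 2 0) (p 2 1) ∧ 0 < DD 2 0 (p 1 0) (p 1 1) (p 2 0) (p 2 1) ∧
      0 < DD 0 β (p 1 0) (p 1 1) (p 2 0) (p 2 1)) ∧
    (0 < DD (p 0 0) (p 0 1) 0 0 (p 2 0) (p 2 1) ∧ 0 < DD (p 0 0) (p 0 1) 2 0 (p 2 0) (p 2 1) ∧
      0 < DD (p 0 0) (p 0 1) 0 β (p 2 0) (p 2 1)) ∧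
    (0 < DD (p 0 0) (p 0 1) (p 1 0) (p 1 1) 0 0 ∧ 0 < DD (p 0 0) (p 0 1) (p 1 0) (p 1 1) 2 0 ∧
      0 < DD (p 0 0) (p 0 1) (p 1 0) (p 1 1) 0 β) ∧
    (-1 < p 0 0 ∧ -1 < p 0 1 ∧ β * p 0 0 + 2 * p 0 1 < 2 * β + 1) ∧
    (-1 < p 1 0 ∧ -1 < p 1 1 ∧ β * p 1 0 + 2 * p 1 1 < 2 * β + 1) ∧
    (-1 < p 2 0 ∧ -1 < p 2 1 ∧ β * p 2 0 + 2 * p 2 1 < 2 * β + 1)}

theorem U_open (β : ℤ) : IsOpen (U β) := by
  have hc : ∀ i : Fin 3, ∀ j : Fin 2, Continuous (fun p : Fin 3 → Fin 2 → ℝ => p i j) :=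
    fun i j => (continuous_apply j).comp (continuous_apply i)
  unfold U DD
  repeat' apply IsOpen.and
  all_goals
    apply isOpen_lt <;> fun_prop

theorem U_nonempty (β : ℤ) (hβ : 2 ≤ β) (hβ3 : β ≤ 3) : (U β).Nonempty := by
  have : β = 2 ∨ β = 3 := by omega
  rcases this with rfl | rfl
  · refine ⟨![![-1 / 2, -1 / 2], ![11 / 4, -1 / 2], ![-1 / 2, 11 / 4]], ?_⟩
    simp only [U, DD, Set.mem_ofPred_eq, Matrix.cons_val]
    norm_num
  · refine ⟨![![-1 / 2, -1 / 2], ![5 / 2, -1 / 2], ![-1 / 2, 4]], ?_⟩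
    simp only [U, DD, Set.mem_ofPred_eq, Matrix.cons_val]
    norm_num

theorem inT_of_DD (p : Fin 3 → Fin 2 → ℝ) (x y : ℝ)
    (hD : 0 < DD (p 0 0) (p 0 1) (p 1 0) (p 1 1) (p 2 0) (p 2 1))
    (h0 : 0 < DD x y (p 1 0) (p 1 1) (p 2 0) (p 2 1))
    (h1 : 0 < DD (p 0 0) (p 0 1) x y (p 2 0) (p 2 1))
    (h2 : 0 < DD (p 0 0) (p 0 1) (p 1 0) (p 1 1) x y) : InT p x y := by
  set D := DD (p 0 0) (p 0 1) (p 1 0) (p 1 1) (p 2 0) (p 2 1) with hDD
  refine ⟨DD x y (p 1 0) (p 1 1) (p 2 0) (p 2 1) / D, DD (p 0 0) (p 0 1) x y (p 2 0) (p 2 1) / D,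
    DD (p 0 0) (p 0 1) (p 1 0) (p 1 1) x y / D, (by positivity), (by positivity), (by positivity),
    ?_, ?_, ?_⟩
  · rw [← add_div, ← add_div, div_eq_one_iff_eq hD.ne', hDD]
    unfold DD; ring
  · rw [div_mul_eq_mul_div, div_mul_eq_mul_div, div_mul_eq_mul_div, ← add_div, ← add_div,
      eq_div_iff hD.ne', hDD]
    unfold DD; ring
  · rw [div_mul_eq_mul_div, div_mul_eq_mul_div, div_mul_eq_mul_div, ← add_div, ← add_div,
      eq_div_iff hD.ne', hDD]
    unfold DD; ring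

theorem U_sub (hF : T_FACE) (β : ℤ) (hβ : 0 < β) :
    U β ⊆ {p | detP (n := 2) p ≠ 0 ∧ IsFace (n := 2) (liftP (n := 2) p) (poly (SB β))} := by
  intro p hp
  obtain ⟨hD, ⟨a1, a2, a3⟩, ⟨b1, b2, b3⟩, ⟨c1, c2, c3⟩, ⟨u1, u2, u3⟩, ⟨v1, v2, v3⟩,
    ⟨w1, w2, w3⟩⟩ := hp
  have hdet : detP (n := 2) p ≠ 0 := by rw [detP_eq]; exact hD.ne'
  refine ⟨hdet, ?_⟩
  rw [hF (SB β) (liftP (n := 2) p) (dim2_SB β hβ) hdet
    (fun i => Or.inl (by rw [lift2]; norm_num)), uf_iff _ p hdet]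
  have hβr : (0 : ℝ) < β := by exact_mod_cast hβ
  intro x y
  rw [poly_SB β hβ]
  constructor
  · rintro ⟨a, b, c, ha, hb, hc, h1, hx, hy⟩
    have g1 : (-1 : ℝ) < x := by
      rw [hx]
      have : -1 = a * (-1) + b * (-1) + c * (-1) := by linarith
      rw [this]
      by_contra h
      rw [not_lt] at h
      have k1 := mul_nonneg ha (sub_nonneg.2 u1.le)
      have k2 := mul_nonneg hb (sub_nonneg.2 v1.le)
      have k3 := mul_nonneg hc (sub_nonneg.2 w1.le)
      have z1 : a * (p 0 0 - -1) = 0 := by linarith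
      have z2 : b * (p 1 0 - -1) = 0 := by linarith
      have z3 : c * (p 2 0 - -1) = 0 := by linarith
      have y1 : a = 0 := by
        rcases mul_eq_zero.1 z1 with h | h
        · exact h
        · linarith
      have y2 : b = 0 := by
        rcases mul_eq_zero.1 z2 with h | h
        · exact h
        · linarith
      have y3 : c = 0 := by
        rcases mul_eq_zero.1 z3 with h | h
        · exact h
        · linarith
      linarith
    have g2 : (-1 : ℝ) < y := by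
      rw [hy]
      have : -1 = a * (-1) + b * (-1) + c * (-1) := by linarith
      rw [this]
      by_contra h
      rw [not_lt] at h
      have k1 := mul_nonneg ha (sub_nonneg.2 u2.le)
      have k2 := mul_nonneg hb (sub_nonneg.2 v2.le)
      have k3 := mul_nonneg hc (sub_nonneg.2 w2.le)
      have z1 : a * (p 0 1 - -1) = 0 := by linarith
      have z2 : b * (p 1 1 - -1) = 0 := by linarith
      have z3 : c * (p 2 1 - -1) = 0 := by linarith
      have y1 : a = 0 := by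
        rcases mul_eq_zero.1 z1 with h | h
        · exact h
        · linarith
      have y2 : b = 0 := by
        rcases mul_eq_zero.1 z2 with h | h
        · exact h
        · linarith
      have y3 : c = 0 := by
        rcases mul_eq_zero.1 z3 with h | h
        · exact h
        · linarith
      linarith
    have g3 : (β : ℝ) * x + 2 * y < 2 * β + 1 := by
      have e : (2 : ℝ) * β + 1 = a * (2 * β + 1) + b * (2 * β + 1) + c * (2 * β + 1) := by
        rw [← add_mul, ← add_mul, h1, one_mul]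
      by_contra h
      rw [not_lt, e, hx, hy] at h
      have k1 := mul_nonneg ha (sub_nonneg.2 u3.le)
      have k2 := mul_nonneg hb (sub_nonneg.2 v3.le)
      have k3 := mul_nonneg hc (sub_nonneg.2 w3.le)
      have z1 : a * (2 * β + 1 - (β * p 0 0 + 2 * p 0 1)) = 0 := by linarith
      have z2 : b * (2 * β + 1 - (β * p 1 0 + 2 * p 1 1)) = 0 := by linarith
      have z3 : c * (2 * β + 1 - (β * p 2 0 + 2 * p 2 1)) = 0 := by linarith
      have y1 : a = 0 := by
        rcases mul_eq_zero.1 z1 with h | h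
        · exact h
        · linarith
      have y2 : b = 0 := by
        rcases mul_eq_zero.1 z2 with h | h
        · exact h
        · linarith
      have y3 : c = 0 := by
        rcases mul_eq_zero.1 z3 with h | h
        · exact h
        · linarith
      linarith
    have g1' : (-1 : ℤ) < x := by exact_mod_cast g1
    have g2' : (-1 : ℤ) < y := by exact_mod_cast g2
    have g3' : β * x + 2 * y < 2 * β + 1 := by exact_mod_cast g3
    refine ⟨?_, ?_, ?_⟩
    · exact_mod_cast (by omega : 0 ≤ x)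
    · exact_mod_cast (by omega : 0 ≤ y)
    · exact_mod_cast (by omega : β * x + 2 * y ≤ 2 * β)
  · rintro ⟨hx, hy, hxy⟩
    have i00 := inT_of_DD p 0 0 hD a1 b1 c1
    have i20 := inT_of_DD p 2 0 hD a2 b2 c2
    have i0b := inT_of_DD p 0 β hD a3 b3 c3
    obtain ⟨d1, d2, d3, e1, e2, e3, e4, e5, e6⟩ := i00
    obtain ⟨f1, f2, f3, g1, g2, g3, g4, g5, g6⟩ := i20
    obtain ⟨k1, k2, k3, l1, l2, l3, l4, l5, l6⟩ := i0b
    have s1 : 0 ≤ 1 - (x : ℝ) / 2 - y / β := by
      have e : 1 - (x : ℝ) / 2 - y / β = (2 * β - (β * x + 2 * y)) / (2 * β) := by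
        field_simp; ring
      rw [e]
      exact div_nonneg (by linarith) (by positivity)
    have s2 : 0 ≤ (x : ℝ) / 2 := by positivity
    have s3 : 0 ≤ (y : ℝ) / β := by positivity
    set A := 1 - (x : ℝ) / 2 - y / β with hA
    set B := (x : ℝ) / 2 with hB
    set C := (y : ℝ) / β with hC
    refine ⟨A * d1 + B * f1 + C * k1, A * d2 + B * f2 + C * k2, A * d3 + B * f3 + C * k3,
      by positivity, by positivity, by positivity, ?_, ?_, ?_⟩
    · calc A * d1 + B * f1 + C * k1 + (A * d2 + B * f2 + C * k2) + (A * d3 + B * f3 + C * k3)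
          = A * (d1 + d2 + d3) + B * (f1 + f2 + f3) + C * (k1 + k2 + k3) := by ring
        _ = 1 := by rw [e4, g4, l4, hA]; ring
    · calc (x : ℝ) = A * 0 + B * 2 + C * 0 := by rw [hB]; ring
        _ = A * (d1 * p 0 0 + d2 * p 1 0 + d3 * p 2 0)
            + B * (f1 * p 0 0 + f2 * p 1 0 + f3 * p 2 0)
            + C * (k1 * p 0 0 + k2 * p 1 0 + k3 * p 2 0) := by rw [← e5, ← g5, ← l5]
        _ = _ := by ring
    · calc (y : ℝ) = A * 0 + B * 0 + C * β := by rw [hC]; field_simp; ring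
        _ = A * (d1 * p 0 1 + d2 * p 1 1 + d3 * p 2 1)
            + B * (f1 * p 0 1 + f2 * p 1 1 + f3 * p 2 1)
            + C * (k1 * p 0 1 + k2 * p 1 1 + k3 * p 2 1) := by rw [← e6, ← g6, ← l6]
        _ = _ := by ring

theorem moebius_pos (hF : T_FACE) (β : ℤ) (hβ : 2 ≤ β) (hβ3 : β ≤ 3) :
    0 < moebius (n := 2) (poly (SB β)) := by
  unfold moebius
  have hmeas : Measurable (fun p : Fin 3 → Fin 2 → ℝ =>
      ENNReal.ofReal ((|detP (n := 2) p / ((2 : ℕ).factorial : ℝ)| ^ (2 + 1))⁻¹)) := by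
    have : (fun p : Fin 3 → Fin 2 → ℝ => detP (n := 2) p)
        = fun p => DD (p 0 0) (p 0 1) (p 1 0) (p 1 1) (p 2 0) (p 2 1) := by
      funext p; exact detP_eq p
    have h2 : Measurable (fun p : Fin 3 → Fin 2 → ℝ => detP (n := 2) p) := by
      rw [this]; unfold DD; fun_prop
    fun_prop
  refine lt_of_lt_of_le ?_ (lintegral_mono_set (U_sub hF β (by omega)))
  rw [setLIntegral_pos_iff hmeas]
  have hsub : U β ⊆ Function.support (fun p : Fin 3 → Fin 2 → ℝ =>
      ENNReal.ofReal ((|detP (n := 2) p / ((2 : ℕ).factorial : ℝ)| ^ (2 + 1))⁻¹)) ∩ U β := by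
    intro p hp
    refine ⟨?_, hp⟩
    rw [Function.mem_support]
    have hD : detP (n := 2) p ≠ 0 := by rw [detP_eq]; exact hp.1.ne'
    have : 0 < (|detP (n := 2) p / ((2 : ℕ).factorial : ℝ)| ^ (2 + 1))⁻¹ := by
      have : 0 < |detP (n := 2) p / ((2 : ℕ).factorial : ℝ)| := by
        rw [abs_pos]
        exact div_ne_zero hD (by positivity)
      positivity
    exact (ENNReal.ofReal_pos.2 this).ne'
  exact lt_of_lt_of_le ((U_open β).measure_pos volume (U_nonempty β hβ hβ3)) (measure_mono hsub)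

theorem ex (hF : T_FACE) : T_EX :=
  ⟨relCpt_SB hF 2 (by norm_num) (by norm_num), relCpt_SB hF 3 (by norm_num) (by norm_num),
    moebius_pos hF 2 (by norm_num) (by norm_num), moebius_pos hF 3 (by norm_num) (by norm_num)⟩

end KF83EX
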